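import Pool.Agent.Lib.MP_6bc78b_nt.LW.Iface

/-! Project LW, module W9: the weighted inequalities in a window. -/

set_option autoImplicit false

open Complex Filter Topology MeasureTheory ArithmeticFunction

namespace Pool.Agent.Lib.MP_6bc78b_nt.LW.H80

open Pool.Agent.Lib.MP_6bc78b_nt
open Pool.Agent.Lib.MP_6bc78b_nt.MS Pool.Agent.Lib.MP_6bc78b_nt.MS.P1
open Pool.Agent.Lib.MP_6bc78b_nt.MS.P5 Pool.Agent.Lib.MP_6bc78b_nt.MS.P5.HM
open Pool.Agent.Lib.MP_6bc78b_nt.LW

lemma BB_norm (lam T : ℝ) (h0 : 0 < lam) (h1 : lam < 1) (hT : 3 ≤ T) (γ : ℝ) :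
    ‖BB lam T (1 / 2 + γ * I)‖ ≤ T ^ (3 : ℝ) := by
  have hlog : 0 < Real.log T := Real.log_pos (by linarith)
  rw [BB_eq]
  apply PD_norm _ _ T (by linarith)
  · refine (Nat.floor_le (by positivity)).trans ?_
    calc T ^ lam ≤ T ^ (1 : ℝ) := Real.rpow_le_rpow_of_exponent_le (by linarith) h1.le
      _ = T := Real.rpow_one T
  · intro n
    refine ⟨bb_nonneg lam T (by positivity) (by linarith) n,
      (bb_le_one lam T h0 (by linarith) n).trans (by linarith)⟩
  · simp
    norm_num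

lemma zst_split (hz : ZfacStatement) (T t : ℝ) (g : ℝ → ℝ) :
    ∑ᶠ γ ∈ zset t, g γ = ∑ᶠ γ ∈ zst T t, g γ + ∑ᶠ γ ∈ zset t \ zset T, g γ := by
  have hf : (zset t).Finite := hz.2.2.2.2.2.2 t
  have h1 : zset t = zst T t ∪ (zset t \ zset T) := by
    unfold zst
    ext x
    simp only [Set.mem_union, Set.mem_inter_iff, Set.mem_sdiff]
    tauto
  conv_lhs => rw [h1]
  apply finsum_mem_union
  · unfold zst
    rw [Set.disjoint_left]
    rintro x ⟨h2, -⟩ ⟨-, h3⟩
    exact h3 h2
  · exact hf.subset Set.inter_subset_right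
  · exact hf.subset Set.sdiff_subset

/-- HWL -/
theorem hwL (hz : ZfacStatement) (hMm : MmLStatement) (hLin : LinLStatement)
    (hRst : RstLStatement) (hCn : CnLStatement) (hPr : PrimeSumStatement) (hPT : PTStatement) :
    HwLStatement := by
  classical
  intro a0 η ha0 ha1 hη
  constructor
  · intro lam hl0 hl1
    -- the choice of e
    obtain ⟨e, he0, he1⟩ : ∃ e : ℝ, 0 < e ∧
        (1 / lam + 2 * e) * (1 + e) + lam / 3 + 4 * e < 1 / lam + lam / 3 + η := by
      have hc : Tendsto (fun e : ℝ => (1 / lam + 2 * e) * (1 + e) + lam / 3 + 4 * e) (𝓝[>] 0)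
          (𝓝 ((1 / lam + 2 * 0) * (1 + 0) + lam / 3 + 4 * 0)) := by
        apply Tendsto.mono_left _ nhdsWithin_le_nhds
        apply Continuous.tendsto
        fun_prop
      have h1 : (1 / lam + 2 * 0) * (1 + 0) + lam / 3 + 4 * 0 < 1 / lam + lam / 3 + η := by
        linarith
      obtain ⟨e, h3, h4⟩ := ((hc.eventually (gt_mem_nhds h1)).and self_mem_nhdsWithin).exists
      exact ⟨e, h4, h3⟩
    obtain ⟨T1, hT1⟩ := Filter.eventually_atTop.1 (hPT lam e hl0 hl1 he0)
    obtain ⟨T2, hT2⟩ := hLin a0 lam ha0 ha1 hl0 hl1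
    obtain ⟨T3, hT3⟩ := hRst 3 a0 ha0 ha1
    obtain ⟨T4, hT4⟩ := hCn a0 e ha0 ha1 he0
    have hPl : ∀ᶠ T : ℝ in atTop, (∑ k ∈ Finset.Icc 1 ⌊T ^ lam⌋₊, La k * bb lam T k / k) /
        Real.log T < lam / 6 + e / 2 :=
      (hPr.1 lam hl0 hl1).eventually (gt_mem_nhds (by linarith))
    have hLl : ∀ᶠ T : ℝ in atTop, 2 / e + 2 ≤ Real.log T :=
      Real.tendsto_log_atTop.eventually (eventually_ge_atTop _)
    have hHl : ∀ᶠ T : ℝ in atTop, 4 / e ≤ T ^ a0 :=
      (tendsto_rpow_atTop ha0).eventually (eventually_ge_atTop _)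
    obtain ⟨T5, hT5⟩ := Filter.eventually_atTop.1 (hPl.and (hLl.and (hHl.and
      (eventually_ge_atTop (3 : ℝ)))))
    refine ⟨max T1 (max T2 (max T3 (max T4 T5))), fun T t H hT ht1 ht2 hH1 hH2 => ?_⟩
    have q1 : T1 ≤ T := (le_max_left _ _).trans hT
    have q2 : T2 ≤ T := ((le_max_left _ _).trans (le_max_right _ _)).trans hT
    have q3 : T3 ≤ T := ((le_max_left _ _).trans ((le_max_right _ _).trans
      (le_max_right _ _))).trans hT
    have q4 : T4 ≤ T := ((le_max_left _ _).trans ((le_max_right _ _).trans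
      ((le_max_right _ _).trans (le_max_right _ _)))).trans hT
    have q5 : T5 ≤ T := ((le_max_right _ _).trans ((le_max_right _ _).trans
      ((le_max_right _ _).trans (le_max_right _ _)))).trans hT
    obtain ⟨r1, r2, r3, r4⟩ := hT5 T q5
    have hT0 : 0 < T := by linarith
    have hR : Rng a0 T t H := ⟨by linarith, by linarith, hH1, hH2⟩
    have hPTT := hT1 T q1
    have hLinT := hT2 T t H q2 hR
    have hRT := hT3 T t H q3 hR (fun γ => -(BB lam T (1 / 2 + γ * I)).re) (fun γ _ => by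
      rw [abs_neg]
      exact (Complex.abs_re_le_norm _).trans (BB_norm lam T hl0 hl1 r4 γ))
    have hCT := (hT4 T t H q4 hR).2
    have hlogT : 0 < Real.log T := by
      have : 0 < 2 / e := by positivity
      linarith
    have hH0 : 0 < H := lt_of_lt_of_le (by positivity) hH1
    have hcH : 0 < cL H := by unfold cL; positivity
    have hft : (zset t).Finite := hz.2.2.2.2.2.2 t
    have hfz : (zst T t).Finite := hft.subset Set.inter_subset_right
    have hw : ∀ γ : ℝ, 0 ≤ (mz γ : ℝ) * wl t H γ := fun γ =>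
      mul_nonneg (Nat.cast_nonneg _) (Real.exp_pos _).le
    -- the pointwise inequality, summed
    have s1 : ∑ᶠ γ ∈ zst T t, (mz γ : ℝ) ^ 2 * wl t H γ ≤
        (1 / lam + 2 * e) * ∑ᶠ γ ∈ zst T t, (mz γ : ℝ) * wl t H γ +
        2 * ∑ᶠ γ ∈ zst T t, (mz γ : ℝ) * wl t H γ * (-(BB lam T (1 / 2 + γ * I)).re) := by
      rw [finsum_mem_eq_finite_toFinset_sum _ hfz, finsum_mem_eq_finite_toFinset_sum _ hfz,
        finsum_mem_eq_finite_toFinset_sum _ hfz, Finset.mul_sum, Finset.mul_sum,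
        ← Finset.sum_add_distrib]
      refine Finset.sum_le_sum fun γ hγ => ?_
      have hγ' : γ ∈ zst T t := hfz.mem_toFinset.1 hγ
      have h2 := hPTT γ hγ'.1
      have h3 : (mz γ : ℝ) ≤ 1 / lam + 2 * e + 2 * (-(BB lam T (1 / 2 + γ * I)).re) := by
        have h4 : 1 / lam = 2 * (1 / (2 * lam)) := by field_simp
        rw [h4]
        linarith
      have h5 := mul_le_mul_of_nonneg_left h3 (hw γ)
      calc (mz γ : ℝ) ^ 2 * wl t H γ = (mz γ : ℝ) * wl t H γ * (mz γ : ℝ) := by ring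
        _ ≤ _ := h5
        _ = _ := by ring
    -- the zeros of zst among those of zset t
    have s2 : ∑ᶠ γ ∈ zst T t, (mz γ : ℝ) * wl t H γ ≤ ∑ᶠ γ ∈ zset t, (mz γ : ℝ) * wl t H γ := by
      rw [zst_split hz T t]
      have : 0 ≤ ∑ᶠ γ ∈ zset t \ zset T, (mz γ : ℝ) * wl t H γ :=
        finsum_nonneg fun γ => finsum_nonneg fun _ => hw γ
      linarith
    have s3 : ∑ᶠ γ ∈ zst T t, (mz γ : ℝ) * wl t H γ * (-(BB lam T (1 / 2 + γ * I)).re) ≤
        ∑ᶠ γ ∈ zset t, (mz γ : ℝ) * wl t H γ * (-(BB lam T (1 / 2 + γ * I)).re) + 1 / T := by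
      rw [zst_split hz T t]
      have hfd : (zset t \ zset T).Finite := hft.subset Set.sdiff_subset
      have hff : {γ : ℝ | γ ∈ zset t ∧ T / 10 ≤ |γ - t|}.Finite := hft.subset (fun γ h => h.1)
      have h1 : -(1 / T) ≤ ∑ᶠ γ ∈ zset t \ zset T,
          (mz γ : ℝ) * wl t H γ * (-(BB lam T (1 / 2 + γ * I)).re) := by
        have h2 : -(∑ᶠ γ ∈ zset t \ zset T,
            (mz γ : ℝ) * wl t H γ * (-(BB lam T (1 / 2 + γ * I)).re)) ≤
            ∑ᶠ γ ∈ {γ : ℝ | γ ∈ zset t ∧ T / 10 ≤ |γ - t|},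
            (mz γ : ℝ) * wl t H γ * |(-(BB lam T (1 / 2 + γ * I)).re)| := by
          rw [finsum_mem_eq_finite_toFinset_sum _ hfd, finsum_mem_eq_finite_toFinset_sum _ hff,
            ← Finset.sum_neg_distrib]
          have hsub : hfd.toFinset ⊆ hff.toFinset := by
            intro γ hγ
            rw [Set.Finite.mem_toFinset] at hγ ⊢
            obtain ⟨g1, g2⟩ := hγ
            refine ⟨g1, ?_⟩
            obtain ⟨g3, g4, g5⟩ := g1
            have g6 : γ ≤ T / 2 ∨ 2 * T ≤ γ := by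
              by_contra h
              rw [not_or, not_le, not_le] at h
              exact g2 ⟨h.1, h.2, g5⟩
            rw [le_abs]
            rcases g6 with g6 | g6
            · right; linarith
            · left; linarith
          refine (Finset.sum_le_sum (fun γ _ => ?_)).trans
            (Finset.sum_le_sum_of_subset_of_nonneg hsub (fun γ _ _ =>
              mul_nonneg (hw γ) (abs_nonneg _)))
          rw [← mul_neg]
          exact mul_le_mul_of_nonneg_left (neg_le_abs _) (hw γ)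
        linarith
      linarith
    -- numeric assembly
    set X1 := ‖NB (2 * ⌊T ^ lam⌋₊) T H La (bb lam T) t‖ with hX1
    set X2 := ‖NB (2 * ⌊T ^ lam⌋₊) T H (bb lam T) (bb lam T) t‖ with hX2
    set SP := ∑ k ∈ Finset.Icc 1 ⌊T ^ lam⌋₊, La k * bb lam T k / k with hSP
    have hSPb : SP ≤ (lam / 6 + e / 2) * Real.log T := by
      rw [div_lt_iff₀ hlogT] at r1
      exact r1.le
    have hE : E1 lam T H t = X1 + X2 := rfl
    have hX10 : 0 ≤ X1 := norm_nonneg _
    have hX20 : 0 ≤ X2 := norm_nonneg _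
    rw [hE]
    have hlog2 : 2 ≤ e * Real.log T := by
      have h1 : 2 / e ≤ Real.log T := by linarith
      rw [div_le_iff₀ he0] at h1
      linarith
    have hlog2' : 2 ≤ Real.log T := by
      have : 0 < 2 / e := by positivity
      linarith
    have hcH1 : 2 / T ≤ e * (cL H * Real.log T) := by
      have h1 : 1 / 4 * H ≤ cL H := by
        unfold cL
        have h0 : Real.sqrt Real.pi ≤ 2 := by
          rw [Real.sqrt_le_left (by norm_num)]
          linarith [Real.pi_le_four]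
        have h00 : 0 < Real.sqrt Real.pi := Real.sqrt_pos.2 Real.pi_pos
        rw [le_div_iff₀ (by positivity)]
        nlinarith
      have h2 : 4 / e ≤ H := r3.trans hH1
      rw [div_le_iff₀ he0] at h2
      have h3 : 2 / T ≤ 1 := by
        rw [div_le_one hT0]; linarith
      have h4 : 1 ≤ e * cL H := by nlinarith
      nlinarith
    have hfin : (1 / lam + 2 * e) * ((1 + e) * (cL H * Real.log T)) +
        2 * (cL H * (SP + X1) + cL H * (1 + X2) + 1 / T) ≤
        (cL H * Real.log T) * (1 / lam + lam / 3 + η + (X1 + X2)) := by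
      have k1 : 2 * (cL H * SP) ≤ (cL H * Real.log T) * (lam / 3 + e) := by
        have : cL H * SP ≤ cL H * ((lam / 6 + e / 2) * Real.log T) :=
          mul_le_mul_of_nonneg_left hSPb hcH.le
        nlinarith
      have k2 : 2 * (cL H * (X1 + X2)) ≤ (cL H * Real.log T) * (X1 + X2) := by
        have : 0 ≤ cL H * (X1 + X2) := by positivity
        nlinarith
      have k3 : 2 * cL H ≤ (cL H * Real.log T) * e := by nlinarith
      have k4 : 0 ≤ cL H * Real.log T := by positivity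
      have k5 : (cL H * Real.log T) * ((1 / lam + 2 * e) * (1 + e) + lam / 3 + 4 * e) ≤
          (cL H * Real.log T) * (1 / lam + lam / 3 + η) :=
        mul_le_mul_of_nonneg_left he1.le k4
      have k6 : 2 * (1 / T) = 2 / T := by ring
      nlinarith
    have hl1' : 0 ≤ 1 / lam + 2 * e := by positivity
    have s4 : (1 / lam + 2 * e) * ∑ᶠ γ ∈ zst T t, (mz γ : ℝ) * wl t H γ ≤
        (1 / lam + 2 * e) * ((1 + e) * (cL H * Real.log T)) :=
      mul_le_mul_of_nonneg_left (s2.trans hCT) hl1'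
    linarith
  · intro k lam c hk hl0 hkl hc
    have hk1 : (1 : ℝ) ≤ k := by exact_mod_cast hk
    have hl1 : lam < 1 := by nlinarith
    obtain ⟨C, T1, hC, hT1⟩ := hMm a0 lam (η / 4 ^ k) k ha0 ha1 hl0 hk hkl (by positivity)
    have he0 : 0 < (c - 1 / lam) / 2 := by linarith
    obtain ⟨T2, hT2⟩ := Filter.eventually_atTop.1 (hPT lam ((c - 1 / lam) / 2) hl0 hl1 he0)
    refine ⟨4 ^ k * C, max T1 (max T2 1), by positivity, fun T t H hT ht1 ht2 hH1 hH2 => ?_⟩
    have q1 : T1 ≤ T := (le_max_left _ _).trans hT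
    have q2 : T2 ≤ T := ((le_max_left _ _).trans (le_max_right _ _)).trans hT
    have q3 : 1 ≤ T := ((le_max_right _ _).trans (le_max_right _ _)).trans hT
    have hR : Rng a0 T t H := ⟨by linarith, by linarith, hH1, hH2⟩
    have hMT := hT1 T t H q1 hR
    have hPTT := hT2 T q2
    have hft : (zset t).Finite := hz.2.2.2.2.2.2 t
    have hfz : (zst T t).Finite := hft.subset Set.inter_subset_right
    have hw : ∀ γ : ℝ, 0 ≤ (mz γ : ℝ) * wl t H γ := fun γ =>
      mul_nonneg (Nat.cast_nonneg _) (Real.exp_pos _).le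
    have s1 : ∑ᶠ γ ∈ zst T t, ((mz γ : ℝ) * max ((mz γ : ℝ) - c) 0 ^ (2 * k)) * wl t H γ ≤
        4 ^ k * ∑ᶠ γ ∈ zset t, (mz γ : ℝ) * wl t H γ * ‖BB lam T (1 / 2 + γ * I)‖ ^ (2 * k) := by
      rw [zst_split hz T t, mul_add]
      have h0 : 0 ≤ 4 ^ k * ∑ᶠ γ ∈ zset t \ zset T,
          (mz γ : ℝ) * wl t H γ * ‖BB lam T (1 / 2 + γ * I)‖ ^ (2 * k) := by
        apply mul_nonneg (by positivity)
        exact finsum_nonneg fun γ => finsum_nonneg fun _ => mul_nonneg (hw γ) (by positivity)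
      refine le_trans ?_ (le_add_of_nonneg_right h0)
      rw [finsum_mem_eq_finite_toFinset_sum _ hfz, finsum_mem_eq_finite_toFinset_sum _ hfz,
        Finset.mul_sum]
      refine Finset.sum_le_sum fun γ hγ => ?_
      have hγ' : γ ∈ zst T t := hfz.mem_toFinset.1 hγ
      have h2 := hPTT γ hγ'.1
      have h3 : max ((mz γ : ℝ) - c) 0 ≤ 2 * ‖BB lam T (1 / 2 + γ * I)‖ := by
        apply max_le _ (by positivity)
        have h4 : 1 / lam = 2 * (1 / (2 * lam)) := by field_simp
        have h5 : -(BB lam T (1 / 2 + γ * I)).re ≤ ‖BB lam T (1 / 2 + γ * I)‖ :=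
          (neg_le_abs _).trans (Complex.abs_re_le_norm _)
        linarith
      have h6 : max ((mz γ : ℝ) - c) 0 ^ (2 * k) ≤
          4 ^ k * ‖BB lam T (1 / 2 + γ * I)‖ ^ (2 * k) := by
        calc max ((mz γ : ℝ) - c) 0 ^ (2 * k) ≤ (2 * ‖BB lam T (1 / 2 + γ * I)‖) ^ (2 * k) :=
              pow_le_pow_left₀ (le_max_right _ _) h3 _
          _ = 4 ^ k * ‖BB lam T (1 / 2 + γ * I)‖ ^ (2 * k) := by
              rw [mul_pow, pow_mul]
              norm_num
      have h7 := mul_le_mul_of_nonneg_left h6 (hw γ)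
      calc ((mz γ : ℝ) * max ((mz γ : ℝ) - c) 0 ^ (2 * k)) * wl t H γ
          = (mz γ : ℝ) * wl t H γ * max ((mz γ : ℝ) - c) 0 ^ (2 * k) := by ring
        _ ≤ _ := h7
        _ = _ := by ring
    refine s1.trans ((mul_le_mul_of_nonneg_left hMT (by positivity)).trans (le_of_eq ?_))
    have h12 : (12 : ℝ) ^ k = 4 ^ k * 3 ^ k := by rw [← mul_pow]; norm_num
    rw [h12]
    field_simp

end Pool.Agent.Lib.MP_6bc78b_nt.LW.H80
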