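import Pool.Agent.Lib.MP_6bc78b_nt.LW.Iface

/-! Project LW, module W7: the variance lemma. -/

set_option autoImplicit false

open Complex Filter Topology MeasureTheory

namespace Pool.Agent.Lib.MP_6bc78b_nt.LW.H80

open Pool.Agent.Lib.MP_6bc78b_nt
open Pool.Agent.Lib.MP_6bc78b_nt.MS Pool.Agent.Lib.MP_6bc78b_nt.MS.P1
open Pool.Agent.Lib.MP_6bc78b_nt.LW

lemma neg_re' (T : ℝ) (hT : 0 < T) : 0 < (1 / (T : ℂ) ^ 2).re := by
  have : (1 / (T : ℂ) ^ 2) = ((1 / T ^ 2 : ℝ) : ℂ) := by push_cast; rfl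
  rw [this, Complex.ofReal_re]
  positivity

lemma gw_eq (T θ y : ℝ) : ((Real.exp (-y ^ 2 / T ^ 2) : ℝ) : ℂ) *
    Complex.exp (-((y * θ : ℝ) * I)) =
    Complex.exp (-(1 / (T : ℂ) ^ 2) * (y : ℂ) ^ 2 + (-(θ * I)) * y + 0) := by
  rw [Complex.ofReal_exp, ← Complex.exp_add]
  congr 1
  push_cast
  ring

lemma gw_int (T θ : ℝ) (hT : 0 < T) : Integrable (fun y : ℝ =>
    ((Real.exp (-y ^ 2 / T ^ 2) : ℝ) : ℂ) * Complex.exp (-((y * θ : ℝ) * I))) := by
  simp only [gw_eq]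
  exact integrable_cexp_quadratic (neg_re' T hT) _ _

lemma gw_integral (T θ : ℝ) (hT : 0 < T) : ∫ y : ℝ,
    ((Real.exp (-y ^ 2 / T ^ 2) : ℝ) : ℂ) * Complex.exp (-((y * θ : ℝ) * I)) =
    ((Real.sqrt Real.pi * T * Real.exp (-(T * θ) ^ 2 / 4) : ℝ) : ℂ) := by
  have hTc : (T : ℂ) ≠ 0 := by exact_mod_cast hT.ne'
  simp only [gw_eq]
  rw [integral_cexp_quadratic (by
    have := neg_re' T hT
    rw [Complex.neg_re]; linarith), GAU.sqrt_factor hT]
  have e2 : (0 : ℂ) - (-(θ * I)) ^ 2 / (4 * -(1 / (T : ℂ) ^ 2)) =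
      ((-(T * θ) ^ 2 / 4 : ℝ) : ℂ) := by
    push_cast
    have hI : I ^ 2 = -1 := Complex.I_sq
    field_simp
    rw [hI]
    ring
  rw [e2, ← Complex.ofReal_exp, ← Complex.ofReal_mul]

variable {ι : Type*}

lemma norm_sq_sum (P : Finset ι) (c θ : ι → ℝ) (t : ℝ) :
    ((‖∑ p ∈ P, (c p : ℂ) * Complex.exp (-((t * θ p : ℝ) * I))‖ ^ 2 : ℝ) : ℂ) =
      ∑ p ∈ P, ∑ q ∈ P, ((c p * c q : ℝ) : ℂ) * Complex.exp (-((t * (θ p - θ q) : ℝ) * I)) := by
  rw [← Complex.normSq_eq_norm_sq, ← Complex.mul_conj, map_sum, Finset.sum_mul_sum]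
  refine Finset.sum_congr rfl fun p _ => Finset.sum_congr rfl fun q _ => ?_
  rw [map_mul, Complex.conj_ofReal, ← Complex.exp_conj, map_neg, map_mul, Complex.conj_ofReal,
    Complex.conj_I]
  have e : (c p : ℂ) * Complex.exp (-((t * θ p : ℝ) * I)) *
      ((c q : ℂ) * Complex.exp (-(((t * θ q : ℝ) : ℂ) * -I))) =
      (c p : ℂ) * (c q : ℂ) * (Complex.exp (-((t * θ p : ℝ) * I)) *
        Complex.exp (-(((t * θ q : ℝ) : ℂ) * -I))) := by ring
  rw [e, ← Complex.exp_add]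
  push_cast
  congr 2
  ring

lemma mv_pt (P : Finset ι) (c θ : ι → ℝ) (T t : ℝ) :
    ((Real.exp (-t ^ 2 / T ^ 2) *
      ‖∑ p ∈ P, (c p : ℂ) * Complex.exp (-((t * θ p : ℝ) * I))‖ ^ 2 : ℝ) : ℂ) =
    ∑ p ∈ P, ∑ q ∈ P, ((c p * c q : ℝ) : ℂ) * (((Real.exp (-t ^ 2 / T ^ 2) : ℝ) : ℂ) *
        Complex.exp (-((t * (θ p - θ q) : ℝ) * I))) := by
  rw [Complex.ofReal_mul, norm_sq_sum, Finset.mul_sum]
  refine Finset.sum_congr rfl fun p _ => ?_
  rw [Finset.mul_sum]
  refine Finset.sum_congr rfl fun q _ => ?_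
  ring

lemma mv_int (P : Finset ι) (c θ : ι → ℝ) (T : ℝ) (hT : 0 < T) :
    Integrable (fun t : ℝ => Real.exp (-t ^ 2 / T ^ 2) *
      ‖∑ p ∈ P, (c p : ℂ) * Complex.exp (-((t * θ p : ℝ) * I))‖ ^ 2) := by
  have h : Integrable (fun t : ℝ => ((Real.exp (-t ^ 2 / T ^ 2) *
      ‖∑ p ∈ P, (c p : ℂ) * Complex.exp (-((t * θ p : ℝ) * I))‖ ^ 2 : ℝ) : ℂ)) := by
    simp only [mv_pt]
    apply integrable_finsetSum
    intro p _
    apply integrable_finsetSum
    intro q _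
    exact (gw_int T (θ p - θ q) hT).const_mul _
  exact_mod_cast h.re

/-- Mean value with the Gaussian weight. -/
lemma mv_eq (P : Finset ι) (c θ : ι → ℝ) (T : ℝ) (hT : 0 < T) :
    ∫ t : ℝ, Real.exp (-t ^ 2 / T ^ 2) *
      ‖∑ p ∈ P, (c p : ℂ) * Complex.exp (-((t * θ p : ℝ) * I))‖ ^ 2 =
    ∑ p ∈ P, ∑ q ∈ P, c p * c q *
      (Real.sqrt Real.pi * T * Real.exp (-(T * (θ p - θ q)) ^ 2 / 4)) := by
  apply Complex.ofReal_injective
  have h0 := (integral_ofReal (μ := volume) (𝕜 := ℂ) (f := fun t : ℝ =>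
    Real.exp (-t ^ 2 / T ^ 2) *
      ‖∑ p ∈ P, (c p : ℂ) * Complex.exp (-((t * θ p : ℝ) * I))‖ ^ 2)).symm
  refine h0.trans ((MeasureTheory.integral_congr_ae (Filter.Eventually.of_forall
    (fun t => mv_pt P c θ T t))).trans ?_)
  rw [integral_finsetSum]
  · rw [Complex.ofReal_sum]
    refine Finset.sum_congr rfl fun p _ => ?_
    rw [integral_finsetSum, Complex.ofReal_sum]
    · refine Finset.sum_congr rfl fun q _ => ?_
      rw [MeasureTheory.integral_const_mul, gw_integral T _ hT]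
      push_cast
      ring
    · intro q _
      exact (gw_int T (θ p - θ q) hT).const_mul _
  · intro p _
    apply integrable_finsetSum
    intro q _
    exact (gw_int T (θ p - θ q) hT).const_mul _

lemma exp16 (T t : ℝ) (hT : 0 < T) (h1 : T / 2 ≤ t) (h2 : t ≤ 4 * T) :
    1 ≤ Real.exp 16 * Real.exp (-t ^ 2 / T ^ 2) := by
  rw [← Real.exp_add]
  apply Real.one_le_exp
  have : t ^ 2 / T ^ 2 ≤ 16 := by
    rw [div_le_iff₀ (by positivity)]
    nlinarith
  have e : -t ^ 2 / T ^ 2 = -(t ^ 2 / T ^ 2) := by ring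
  rw [e]
  linarith

/-- From the interval to the Gaussian weight. -/
lemma mv_le (P : Finset ι) (c θ : ι → ℝ) (T : ℝ) (hT : 0 < T) :
    ∫ t in (T / 2)..(4 * T), ‖∑ p ∈ P, (c p : ℂ) * Complex.exp (-((t * θ p : ℝ) * I))‖ ^ 2 ≤
    Real.exp 16 * ∑ p ∈ P, ∑ q ∈ P, |c p| * |c q| *
      (Real.sqrt Real.pi * T * Real.exp (-(T * (θ p - θ q)) ^ 2 / 4)) := by
  have h1 : ∫ t in (T / 2)..(4 * T),
      ‖∑ p ∈ P, (c p : ℂ) * Complex.exp (-((t * θ p : ℝ) * I))‖ ^ 2 ≤
      ∫ t in (T / 2)..(4 * T), Real.exp 16 * (Real.exp (-t ^ 2 / T ^ 2) *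
      ‖∑ p ∈ P, (c p : ℂ) * Complex.exp (-((t * θ p : ℝ) * I))‖ ^ 2) := by
    apply intervalIntegral.integral_mono_on (by linarith)
    · apply Continuous.intervalIntegrable
      fun_prop
    · apply Continuous.intervalIntegrable
      fun_prop
    · intro t ht
      have h2 := exp16 T t hT ht.1 ht.2
      have h3 : 0 ≤ ‖∑ p ∈ P, (c p : ℂ) * Complex.exp (-((t * θ p : ℝ) * I))‖ ^ 2 := by positivity
      rw [← mul_assoc]
      nlinarith
  refine h1.trans ?_
  rw [intervalIntegral.integral_const_mul]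
  apply mul_le_mul_of_nonneg_left _ (Real.exp_pos _).le
  rw [intervalIntegral.integral_of_le (by linarith)]
  have h2 := mv_int P c θ T hT
  refine (setIntegral_le_integral h2 (Filter.Eventually.of_forall fun t => by
    simp only [Pi.zero_apply]; positivity)).trans ?_
  rw [mv_eq P c θ T hT]
  refine Finset.sum_le_sum fun p _ => Finset.sum_le_sum fun q _ => ?_
  apply mul_le_mul_of_nonneg_right _ (by positivity)
  rw [← abs_mul]
  exact le_abs_self _

lemma prs_mem {N : ℕ} {T H : ℝ} {p : ℕ × ℕ} (hp : p ∈ prs N T H) :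
    (1 ≤ p.1 ∧ p.1 ≤ N) ∧ (1 ≤ p.2 ∧ p.2 ≤ N) := by
  classical
  unfold prs at hp
  rw [Finset.mem_filter, Finset.mem_product, Finset.mem_Icc, Finset.mem_Icc] at hp
  exact hp.1

lemma prs_card (N : ℕ) (T H : ℝ) : ((prs N T H).card : ℝ) ≤ (N : ℝ) * N := by
  classical
  have h1 : (prs N T H).card ≤ N * N := by
    unfold prs
    refine (Finset.card_filter_le _ _).trans ?_
    rw [Finset.card_product, Nat.card_Icc]
    simp
  exact_mod_cast h1

/-- VARL -/
theorem varL (h4 : Cnt4Statement) : VarLStatement := by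
  classical
  intro a0 ε ha0 ha1 hε
  obtain ⟨T1, hT1⟩ := h4 a0 (ε / 2) ha0 ha1 (by linarith)
  -- numeric facts
  have n1 : ∀ᶠ T : ℝ in atTop, 2 * (Real.exp 16 * Real.sqrt Real.pi) ≤ T ^ (ε / 2) :=
    (tendsto_rpow_atTop (show 0 < ε / 2 by linarith)).eventually (eventually_ge_atTop _)
  have n2 : ∀ᶠ T : ℝ in atTop, 40 ≤ Real.log T :=
    Real.tendsto_log_atTop.eventually (eventually_ge_atTop _)
  obtain ⟨T2, hT2⟩ := Filter.eventually_atTop.1 (n1.and (n2.and (eventually_ge_atTop (16 : ℝ))))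
  refine ⟨max T1 T2, fun T H M N a b hT hH1 hH2 hN hM ha hb => ?_⟩
  have hT1' : T1 ≤ T := (le_max_left _ _).trans hT
  obtain ⟨m1, m2, m3⟩ := hT2 T ((le_max_right _ _).trans hT)
  have hT0 : 0 < T := by linarith
  have hH0 : 0 < H := lt_of_lt_of_le (by positivity) hH1
  have hc4 := hT1 T H N hT1' hH1 hH2 hN
  obtain ⟨c, hc⟩ : ∃ c : ℕ × ℕ → ℝ, c = fun p => a p.1 * b p.2 *
    Real.exp (-(H * (Real.log p.1 - Real.log p.2)) ^ 2 / 4) / Real.sqrt (p.1 * p.2) := ⟨_, rfl⟩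
  obtain ⟨θ, hθ⟩ : ∃ θ : ℕ × ℕ → ℝ, θ = fun p => Real.log p.1 - Real.log p.2 := ⟨_, rfl⟩
  have hNB : ∀ t : ℝ, NB N T H a b t = ∑ p ∈ prs N T H, (c p : ℂ) *
      Complex.exp (-((t * θ p : ℝ) * I)) := by
    intro t
    unfold NB
    rw [hc, hθ]
  simp only [hNB]
  refine (mv_le (prs N T H) c θ T hT0).trans ?_
  -- the coefficients
  obtain ⟨r, hr⟩ : ∃ r : ℕ × ℕ → ℝ, r = fun p => 1 / Real.sqrt (p.1 * p.2) := ⟨_, rfl⟩
  have hr0 : ∀ p, 0 ≤ r p := fun p => by rw [hr]; positivity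
  have hcb : ∀ p ∈ prs N T H, |c p| ≤ M ^ 2 * r p ∧ r p ≤ 1 := by
    intro p hp
    obtain ⟨⟨p1, p2⟩, p3, p4⟩ := prs_mem hp
    have hp1 : (1 : ℝ) ≤ p.1 := by exact_mod_cast p1
    have hp3 : (1 : ℝ) ≤ p.2 := by exact_mod_cast p3
    have hs1 : 1 ≤ Real.sqrt (p.1 * p.2) := by
      rw [Real.one_le_sqrt]
      nlinarith
    constructor
    · rw [hc, hr]
      simp only
      rw [abs_div, abs_mul, abs_mul, abs_of_pos (Real.exp_pos _),
        abs_of_nonneg (Real.sqrt_nonneg _), mul_one_div]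
      apply div_le_div_of_nonneg_right _ (by linarith)
      have h1 := ha p.1 p2
      have h2 := hb p.2 p4
      have h3 : Real.exp (-(H * (Real.log p.1 - Real.log p.2)) ^ 2 / 4) ≤ 1 := by
        rw [Real.exp_le_one_iff]
        have : 0 ≤ (H * (Real.log p.1 - Real.log p.2)) ^ 2 := sq_nonneg _
        linarith
      calc |a p.1| * |b p.2| * Real.exp (-(H * (Real.log p.1 - Real.log p.2)) ^ 2 / 4)
          ≤ M * M * 1 := by gcongr
        _ = M ^ 2 := by ring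
    · rw [hr]
      simp only
      rw [div_le_one (by linarith)]
      exact hs1
  obtain ⟨G, hG⟩ : ∃ G : ℕ × ℕ → ℕ × ℕ → ℝ, G = fun p q =>
      Real.exp (-(T * (θ p - θ q)) ^ 2 / 4) := ⟨_, rfl⟩
  have hG1 : ∀ p q, G p q ≤ 1 := by
    intro p q
    rw [hG]
    simp only
    rw [Real.exp_le_one_iff]
    have : 0 ≤ (T * (θ p - θ q)) ^ 2 := sq_nonneg _
    linarith
  have hG0 : ∀ p q, 0 ≤ G p q := fun p q => by rw [hG]; exact (Real.exp_pos _).le
  have step1 : ∑ p ∈ prs N T H, ∑ q ∈ prs N T H, |c p| * |c q| *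
      (Real.sqrt Real.pi * T * Real.exp (-(T * (θ p - θ q)) ^ 2 / 4)) ≤
      M ^ 4 * (Real.sqrt Real.pi * T) * ∑ q ∈ prs N T H ×ˢ prs N T H,
        (r q.1 * r q.2) * G q.1 q.2 := by
    rw [Finset.sum_product, Finset.mul_sum]
    refine Finset.sum_le_sum fun p hp => ?_
    rw [Finset.mul_sum]
    refine Finset.sum_le_sum fun q hq => ?_
    have h1 := (hcb p hp).1
    have h2 := (hcb q hq).1
    have h3 : |c p| * |c q| ≤ (M ^ 2 * r p) * (M ^ 2 * r q) := by
      have hp0 : 0 ≤ M ^ 2 * r p := mul_nonneg (by positivity) (hr0 p)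
      exact mul_le_mul h1 h2 (abs_nonneg _) hp0
    have h4 : 0 ≤ Real.sqrt Real.pi * T * G p q := by
      have := hG0 p q
      positivity
    have h5 : Real.exp (-(T * (θ p - θ q)) ^ 2 / 4) = G p q := by rw [hG]
    rw [h5]
    calc |c p| * |c q| * (Real.sqrt Real.pi * T * G p q)
        ≤ ((M ^ 2 * r p) * (M ^ 2 * r q)) * (Real.sqrt Real.pi * T * G p q) :=
          mul_le_mul_of_nonneg_right h3 h4
      _ = _ := by ring
  -- close and far pairs
  have step2 : ∑ q ∈ prs N T H ×ˢ prs N T H, (r q.1 * r q.2) * G q.1 q.2 ≤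
      T ^ (ε / 2) * (1 / H) * (1 + (N : ℝ) ^ 2 / T) + 16 * T ^ 4 * Real.exp (-(Real.log T) ^ 2 / 4) := by
    rw [← Finset.sum_filter_add_sum_filter_not (prs N T H ×ˢ prs N T H)
      (fun q => T * |(Real.log q.1.1 - Real.log q.1.2) -
        (Real.log q.2.1 - Real.log q.2.2)| ≤ Real.log T)]
    apply add_le_add
    · refine le_trans ?_ hc4
      refine Finset.sum_le_sum fun q _ => ?_
      have h1 : r q.1 * r q.2 = 1 / (Real.sqrt (q.1.1 * q.1.2) * Real.sqrt (q.2.1 * q.2.2)) := by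
        rw [hr]
        simp only
        rw [one_div_mul_one_div]
      rw [← h1]
      have h2 := hG1 q.1 q.2
      have h3 : 0 ≤ r q.1 * r q.2 := mul_nonneg (hr0 _) (hr0 _)
      nlinarith
    · have h1 : ∀ q ∈ (prs N T H ×ˢ prs N T H).filter (fun q =>
          ¬ (T * |(Real.log q.1.1 - Real.log q.1.2) -
            (Real.log q.2.1 - Real.log q.2.2)| ≤ Real.log T)),
          (r q.1 * r q.2) * G q.1 q.2 ≤ Real.exp (-(Real.log T) ^ 2 / 4) := by
        intro q hq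
        rw [Finset.mem_filter, Finset.mem_product, not_le] at hq
        obtain ⟨⟨q1, q2⟩, q3⟩ := hq
        have h2 : G q.1 q.2 ≤ Real.exp (-(Real.log T) ^ 2 / 4) := by
          rw [hG]
          simp only
          apply Real.exp_le_exp.2
          have h3 : (Real.log T) ^ 2 ≤ (T * (θ q.1 - θ q.2)) ^ 2 := by
            rw [← sq_abs (T * (θ q.1 - θ q.2)), abs_mul, abs_of_pos hT0]
            have h5 : |θ q.1 - θ q.2| = |(Real.log q.1.1 - Real.log q.1.2) -
                (Real.log q.2.1 - Real.log q.2.2)| := by rw [hθ]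
            rw [h5]
            apply pow_le_pow_left₀ (by linarith) q3.le
          linarith
        have h4 : r q.1 * r q.2 ≤ 1 := by
          have := (hcb q.1 q1).2
          have := (hcb q.2 q2).2
          have := hr0 q.1
          have := hr0 q.2
          nlinarith
        have h5 : 0 ≤ r q.1 * r q.2 := mul_nonneg (hr0 _) (hr0 _)
        calc (r q.1 * r q.2) * G q.1 q.2 ≤ 1 * Real.exp (-(Real.log T) ^ 2 / 4) := by
              apply mul_le_mul h4 h2 (hG0 _ _) (by norm_num)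
          _ = _ := one_mul _
      refine (Finset.sum_le_sum h1).trans ?_
      rw [Finset.sum_const, nsmul_eq_mul]
      apply mul_le_mul_of_nonneg_right _ (Real.exp_pos _).le
      have h2 : (((prs N T H ×ˢ prs N T H).filter (fun q =>
          ¬ (T * |(Real.log q.1.1 - Real.log q.1.2) -
            (Real.log q.2.1 - Real.log q.2.2)| ≤ Real.log T))).card : ℝ) ≤
          ((prs N T H ×ˢ prs N T H).card : ℝ) := by
        exact_mod_cast Finset.card_filter_le _ _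
      refine h2.trans ?_
      rw [Finset.card_product, Nat.cast_mul]
      have h3 := prs_card N T H
      have h4 : (0 : ℝ) ≤ N := Nat.cast_nonneg N
      have h5 : (N : ℝ) * N ≤ (2 * T) * (2 * T) := by gcongr
      calc ((prs N T H).card : ℝ) * ((prs N T H).card : ℝ)
          ≤ ((2 * T) * (2 * T)) * ((2 * T) * (2 * T)) := by
            have := h3.trans h5
            gcongr
        _ = 16 * T ^ 4 := by ring
  -- the small term
  have hsmall : 16 * T ^ 4 * Real.exp (-(Real.log T) ^ 2 / 4) ≤ 1 / T := by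
    have h1 : Real.exp (-(Real.log T) ^ 2 / 4) ≤ Real.exp (-(10 * Real.log T)) := by
      apply Real.exp_le_exp.2
      nlinarith
    have h2 : Real.exp (-(10 * Real.log T)) = 1 / T ^ 10 := by
      rw [Real.exp_neg, mul_comm, Real.exp_mul, Real.exp_log hT0, one_div]
      norm_cast
    rw [h2] at h1
    calc 16 * T ^ 4 * Real.exp (-(Real.log T) ^ 2 / 4) ≤ 16 * T ^ 4 * (1 / T ^ 10) := by gcongr
      _ = 16 / T ^ 6 := by
          field_simp
      _ ≤ 1 / T := by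
          rw [div_le_div_iff₀ (by positivity) hT0]
          have h3 : (16 : ℝ) ≤ T ^ 5 := by
            calc (16 : ℝ) ≤ T := m3
              _ = T ^ 1 := (pow_one T).symm
              _ ≤ T ^ 5 := pow_le_pow_right₀ (by linarith) (by norm_num)
          calc 16 * T ≤ T ^ 5 * T := by gcongr
            _ = 1 * T ^ 6 := by ring
  have hmain : 1 / T ≤ T ^ (ε / 2) * (1 / H) * (1 + (N : ℝ) ^ 2 / T) := by
    have h1 : 1 ≤ T ^ (ε / 2) := Real.one_le_rpow (by linarith) (by linarith)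
    have h2 : 1 / T ≤ 1 / H := one_div_le_one_div_of_le hH0 hH2
    have h3 : 1 ≤ 1 + (N : ℝ) ^ 2 / T := by
      have : 0 ≤ (N : ℝ) ^ 2 / T := by positivity
      linarith
    have h4 : 0 < 1 / H := by positivity
    calc 1 / T ≤ 1 * (1 / H) * 1 := by linarith
      _ ≤ T ^ (ε / 2) * (1 / H) * (1 + (N : ℝ) ^ 2 / T) := by gcongr
  set Q : ℝ := (1 / H) * (1 + (N : ℝ) ^ 2 / T) with hQ
  have hQ0 : 0 ≤ Q := by positivity
  have e1 : T ^ (ε / 2) * (1 / H) * (1 + (N : ℝ) ^ 2 / T) = T ^ (ε / 2) * Q := by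
    rw [hQ]; ring
  rw [e1] at step2 hmain
  have step3 : ∑ q ∈ prs N T H ×ˢ prs N T H, (r q.1 * r q.2) * G q.1 q.2 ≤
      2 * (T ^ (ε / 2) * Q) := by linarith
  have hM4 : 0 ≤ M ^ 4 := by positivity
  calc Real.exp 16 * ∑ p ∈ prs N T H, ∑ q ∈ prs N T H, |c p| * |c q| *
      (Real.sqrt Real.pi * T * Real.exp (-(T * (θ p - θ q)) ^ 2 / 4))
      ≤ Real.exp 16 * (M ^ 4 * (Real.sqrt Real.pi * T) * (2 * (T ^ (ε / 2) * Q))) := by
        apply mul_le_mul_of_nonneg_left _ (Real.exp_pos _).le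
        refine step1.trans ?_
        apply mul_le_mul_of_nonneg_left step3 (by positivity)
    _ = (2 * (Real.exp 16 * Real.sqrt Real.pi)) * (M ^ 4 * T * T ^ (ε / 2) * Q) := by ring
    _ ≤ T ^ (ε / 2) * (M ^ 4 * T * T ^ (ε / 2) * Q) := by
        apply mul_le_mul_of_nonneg_right m1
        positivity
    _ = M ^ 4 * (T * (T ^ (ε / 2) * T ^ (ε / 2))) * Q := by ring
    _ = M ^ 4 * T ^ (1 + ε) * Q := by
        rw [← Real.rpow_add hT0, add_halves, Real.rpow_add hT0, Real.rpow_one]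
    _ = M ^ 4 * T ^ (1 + ε) * (1 / H) * (1 + (N : ℝ) ^ 2 / T) := by rw [hQ]; ring

end Pool.Agent.Lib.MP_6bc78b_nt.LW.H80
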