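import Pool.Agent.Lib.MP_6bc78b_nt.LW.Iface

/-! Project LW, module W1: the analytic tools in a window. -/

set_option autoImplicit false

open Complex Filter Topology MeasureTheory

namespace Pool.Agent.Lib.MP_6bc78b_nt.LW.H80

open Pool.Agent.Lib.MP_6bc78b_nt
open Pool.Agent.Lib.MP_6bc78b_nt.MS Pool.Agent.Lib.MP_6bc78b_nt.MS.P1
open Pool.Agent.Lib.MP_6bc78b_nt.LW

lemma WL_symm (t H : ℝ) (s : ℂ) :
    WL t H (1 - (starRingEnd ℂ) s) = (starRingEnd ℂ) (WL t H s) := by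
  unfold WL
  rw [← Complex.exp_conj]
  congr 1
  simp only [map_div₀, map_pow, map_sub, map_mul, Complex.conj_ofReal, Complex.conj_I, map_one,
    map_ofNat]
  congr 1
  ring

lemma norm_gauss (t c y k : ℝ) :
    ‖Complex.exp (((c : ℂ) + y * I - 1 / 2 - t * I) ^ 2 * (k : ℂ))‖ =
      Real.exp (((c - 1 / 2) ^ 2 - (y - t) ^ 2) * k) := by
  rw [Complex.norm_exp]
  congr 1
  have h : ((c : ℂ) + y * I - 1 / 2 - t * I) ^ 2 * (k : ℂ)
      = (((((c - 1 / 2) ^ 2 - (y - t) ^ 2) * k : ℝ)) : ℂ)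
        + (((2 * (c - 1 / 2) * (y - t) * k : ℝ)) : ℂ) * I := by
    push_cast
    have hI : I ^ 2 = -1 := Complex.I_sq
    linear_combination ((y - t : ℂ) ^ 2 * (k : ℂ)) * hI
  rw [h, Complex.add_re, Complex.re_ofReal_mul, Complex.ofReal_re, Complex.I_re, mul_zero,
    add_zero]

lemma norm_WL (t H c y : ℝ) :
    ‖WL t H (c + y * I)‖ = Real.exp (((c - 1 / 2) ^ 2 - (y - t) ^ 2) / H ^ 2) := by
  have h := norm_gauss t c y (1 / H ^ 2)
  unfold WL
  rw [mul_one_div] at h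
  rw [← h]
  congr 2
  push_cast
  rw [mul_one_div]

lemma WL_half (t H y : ℝ) : WL t H (1 / 2 + y * I) = (wl t H y : ℂ) := by
  unfold WL wl
  rw [Complex.ofReal_exp]
  congr 1
  push_cast
  have hI : I ^ 2 = -1 := Complex.I_sq
  linear_combination ((y - t : ℂ) ^ 2 / (H : ℂ) ^ 2) * hI

lemma WL_cpow (t H c r y : ℝ) (hr : 0 < r) :
    WL t H ((c : ℂ) + y * I) * (r : ℂ) ^ (-((c : ℂ) + y * I)) =
      Complex.exp (-(1 / (H : ℂ) ^ 2) * (y : ℂ) ^ 2 +
        ((2 * t + 2 * I * (c - 1 / 2)) / (H : ℂ) ^ 2 - I * Real.log r) * y +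
        (((c - 1 / 2 : ℂ) ^ 2 - t ^ 2 - 2 * I * (c - 1 / 2) * t) / (H : ℂ) ^ 2
          - c * Real.log r)) := by
  have hrc : (r : ℂ) ≠ 0 := by exact_mod_cast hr.ne'
  unfold WL
  rw [Complex.cpow_def_of_ne_zero hrc, ← Complex.ofReal_log hr.le, ← Complex.exp_add]
  congr 1
  have hI : I ^ 2 = -1 := Complex.I_sq
  linear_combination ((y - t : ℂ) ^ 2 / (H : ℂ) ^ 2) * hI

lemma re_neg (H : ℝ) (hH : 0 < H) : (-(1 / (H : ℂ) ^ 2)).re < 0 := by
  have : (-(1 / (H : ℂ) ^ 2)) = ((-(1 / H ^ 2) : ℝ) : ℂ) := by push_cast; rfl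
  rw [this, Complex.ofReal_re]
  have : 0 < 1 / H ^ 2 := by positivity
  linarith

lemma WL_int (t H c r : ℝ) (hH : 0 < H) (hr : 0 < r) :
    Integrable (fun y : ℝ => WL t H (c + y * I) * (r : ℂ) ^ (-(c + y * I : ℂ))) := by
  simp only [WL_cpow t H c r _ hr]
  have h := re_neg H hH
  exact integrable_cexp_quadratic (b := 1 / (H : ℂ) ^ 2) (by rw [Complex.neg_re] at h; linarith) _ _

lemma VI_WL (t H c r : ℝ) (hD : 0 < H) (hr : 0 < r) :
    VI c (fun s => WL t H s * (r : ℂ) ^ (-s)) = (cL H : ℂ) *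
      Complex.exp (-(1 / 2 + t * I) * Real.log r - H ^ 2 * (Real.log r) ^ 2 / 4) := by
  have hDc : (H : ℂ) ≠ 0 := by exact_mod_cast hD.ne'
  unfold VI
  simp only [WL_cpow t H c r _ hr]
  rw [integral_cexp_quadratic (re_neg H hD), GAU.sqrt_factor hD]
  have e2 : (((c - 1 / 2 : ℂ) ^ 2 - t ^ 2 - 2 * I * (c - 1 / 2) * t) / (H : ℂ) ^ 2
          - c * Real.log r) - ((2 * t + 2 * I * (c - 1 / 2)) / (H : ℂ) ^ 2
            - I * Real.log r) ^ 2 / (4 * -(1 / (H : ℂ) ^ 2))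
      = -(1 / 2 + t * I) * Real.log r - H ^ 2 * (Real.log r) ^ 2 / 4 := by
    have hI : I ^ 2 = -1 := Complex.I_sq
    field_simp
    ring_nf
    rw [hI]
    ring
  rw [e2, ← mul_assoc]
  congr 1
  unfold cL
  push_cast
  have hpi : (Real.sqrt Real.pi : ℂ) ^ 2 = Real.pi := by
    rw [← Complex.ofReal_pow, Real.sq_sqrt Real.pi_pos.le]
  have hpi0 : (Real.sqrt Real.pi : ℂ) ≠ 0 := by
    exact_mod_cast (Real.sqrt_pos.mpr Real.pi_pos).ne'
  rw [← hpi]
  field_simp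

/-- GAUL -/
theorem gauL : GauLStatement :=
  ⟨WL_symm, norm_WL, WL_half, fun t H c r hH hr => ⟨WL_int t H c r hH hr, VI_WL t H c r hH hr⟩⟩

/-! ## The quotient of the weights -/

/-- The quotient of the two weights. -/
noncomputable def Kq (t H : ℝ) (s : ℂ) : ℂ :=
  Complex.exp ((s - 1 / 2 - t * I) ^ 2 * ((1 / H ^ 2 - 1 / DD t ^ 2 : ℝ) : ℂ))

lemma WL_eq (t H : ℝ) (s : ℂ) : WL t H s = Kq t H s * WW t s := by
  unfold WL Kq WW
  rw [← Complex.exp_add]
  congr 1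
  push_cast
  ring

lemma Kq_diff (t H : ℝ) : Differentiable ℂ (Kq t H) := by
  unfold Kq
  fun_prop

lemma Kq_norm (t H c y : ℝ) (hc : |c - 1 / 2| ≤ 8) (hH : 8 ≤ H) (hHD : H ≤ DD t) :
    ‖Kq t H (c + y * I)‖ ≤ Real.exp 1 := by
  unfold Kq
  rw [norm_gauss]
  apply Real.exp_le_exp.2
  have hH0 : 0 < H := by linarith
  have hD0 : 0 < DD t := by linarith
  have h1 : 1 / DD t ^ 2 ≤ 1 / H ^ 2 := by
    apply one_div_le_one_div_of_le (by positivity)
    gcongr
  have h2 : 0 ≤ 1 / DD t ^ 2 := by positivity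
  have h3 : (c - 1 / 2) ^ 2 ≤ 64 := by
    rw [← sq_abs]
    have := abs_nonneg (c - 1 / 2)
    nlinarith
  have h4 : 1 / H ^ 2 ≤ 1 / 64 := by
    apply one_div_le_one_div_of_le (by norm_num)
    nlinarith
  have h5 : 0 ≤ 1 / H ^ 2 - 1 / DD t ^ 2 := by linarith
  have h6 : 0 ≤ (y - t) ^ 2 * (1 / H ^ 2 - 1 / DD t ^ 2) := by positivity
  have h7 : (c - 1 / 2) ^ 2 * (1 / H ^ 2 - 1 / DD t ^ 2) ≤ 64 * (1 / 64) := by
    apply mul_le_mul h3 (by linarith) h5 (by norm_num)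
  nlinarith

lemma Kq_norm' (t H : ℝ) (s : ℂ) (hc : |s.re - 1 / 2| ≤ 8) (hH : 8 ≤ H) (hHD : H ≤ DD t) :
    ‖Kq t H s‖ ≤ Real.exp 1 := by
  have h := Kq_norm t H s.re s.im hc hH hHD
  rwa [Complex.re_add_im] at h

/-- In the range, everything transfers from `T` to `t`. -/
lemma range (hd : DDStatement) (A a0 : ℝ) (ha0 : 0 < a0) (ha1 : a0 < 1 / 2) (P : ℝ → Prop)
    (hP : ∀ᶠ t : ℝ in atTop, P t) : ∃ T0 : ℝ, ∀ T t H : ℝ, T0 ≤ T → Rng a0 T t H →
      P t ∧ 8 ≤ H ∧ H ≤ DD t ∧ 6 ≤ t ∧ T ≤ 2 * t ∧ 2 * Real.exp 1 * T ^ A ≤ t ^ (2 * |A| + 1) ∧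
        1 ≤ t := by
  obtain ⟨t1, ht1⟩ := Filter.eventually_atTop.1 (hP.and (hd.2.1 (a0 / 2) (by linarith)))
  obtain ⟨t2, ht2⟩ := Filter.eventually_atTop.1
    ((tendsto_rpow_atTop (show 0 < a0 / 2 by linarith)).eventually (eventually_ge_atTop 2))
  refine ⟨max (max (2 * t1) (2 * t2)) (max 20 ((8 : ℝ) ^ (1 / a0))), fun T t H hT hR => ?_⟩
  obtain ⟨h1, h2, h3, h4⟩ := hR
  have hT1 : 2 * t1 ≤ T := ((le_max_left _ _).trans (le_max_left _ _)).trans hT
  have hT2 : 2 * t2 ≤ T := ((le_max_right _ _).trans (le_max_left _ _)).trans hT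
  have hT3 : 20 ≤ T := ((le_max_left _ _).trans (le_max_right _ _)).trans hT
  have hT4 : (8 : ℝ) ^ (1 / a0) ≤ T := ((le_max_right _ _).trans (le_max_right _ _)).trans hT
  have hT0 : 0 < T := by linarith
  have ht0 : 10 ≤ t := by linarith
  have htp : 0 < t := by linarith
  obtain ⟨p1, p2⟩ := ht1 t (by linarith)
  have p3 := ht2 t (by linarith)
  refine ⟨p1, ?_, ?_, by linarith, by linarith, ?_, by linarith⟩
  · refine le_trans ?_ h3
    calc (8 : ℝ) = ((8 : ℝ) ^ (1 / a0)) ^ a0 := by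
          rw [← Real.rpow_mul (by norm_num)]
          rw [one_div, inv_mul_cancel₀ ha0.ne', Real.rpow_one]
      _ ≤ T ^ a0 := Real.rpow_le_rpow (by positivity) hT4 ha0.le
  · refine h4.trans (le_trans ?_ p2)
    calc T ^ (1 - a0) ≤ (2 * t) ^ (1 - a0) := by
          apply Real.rpow_le_rpow hT0.le (by linarith) (by linarith)
      _ = 2 ^ (1 - a0) * t ^ (1 - a0) := Real.mul_rpow (by norm_num) htp.le
      _ ≤ 2 ^ (1 : ℝ) * t ^ (1 - a0) := by
          gcongr
          · norm_num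
          · linarith
      _ = 2 * t ^ (1 - a0) := by rw [Real.rpow_one]
      _ ≤ t ^ (a0 / 2) * t ^ (1 - a0) := by gcongr
      _ = t ^ (1 - a0 / 2) := by
          rw [← Real.rpow_add htp]
          congr 1
          ring
  · have e1 : T ^ A ≤ t ^ (2 * |A|) := by
      calc T ^ A ≤ T ^ |A| := Real.rpow_le_rpow_of_exponent_le (by linarith) (le_abs_self A)
        _ ≤ (t ^ (2 : ℝ)) ^ |A| := by
            apply Real.rpow_le_rpow hT0.le _ (abs_nonneg A)
            have : t ^ (2 : ℝ) = t * t := by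
              rw [show (2 : ℝ) = ((2 : ℕ) : ℝ) by norm_num, Real.rpow_natCast]; ring
            rw [this]
            nlinarith
        _ = t ^ (2 * |A|) := by rw [← Real.rpow_mul htp.le]
    have e2 : 2 * Real.exp 1 ≤ t := by
      have := Real.exp_one_lt_d9
      linarith
    calc 2 * Real.exp 1 * T ^ A ≤ t * t ^ (2 * |A|) := by gcongr
      _ = t ^ (2 * |A| + 1) := by rw [Real.rpow_add htp, Real.rpow_one]; ring

lemma SB_re {t : ℝ} {s : ℂ} (hs : s ∈ SB t) : |s.re - 1 / 2| ≤ 8 := by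
  rw [abs_le]
  constructor <;> linarith [hs.1.1, hs.1.2]

/-- TAILL -/
theorem tailL (ht : TailStatement) (hd : DDStatement) : TailLStatement := by
  intro A c a0 hc0 hc8 ha0 ha1
  obtain ⟨T0, h0⟩ := range hd A a0 ha0 ha1 _ (ht (2 * |A| + 1) c hc0 hc8)
  refine ⟨max T0 1, fun T t H hT hR g hg hgb => ?_⟩
  obtain ⟨h1, h8, hHD, ht6, hTt, hpow, ht1⟩ := h0 T t H ((le_max_left _ _).trans hT) hR
  have hT1 : 1 ≤ T := (le_max_right _ _).trans hT
  have hcc : |c - 1 / 2| ≤ 8 := by rw [abs_le]; constructor <;> linarith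
  have hKc : Continuous (fun y : ℝ => Kq t H (c + y * I)) :=
    (Kq_diff t H).continuous.comp (by fun_prop)
  obtain ⟨i1, i2⟩ := h1 (fun s => 2 * g s * Kq t H s)
    ((hg.const_mul 2).mul hKc.aestronglyMeasurable) (fun y => by
      rw [norm_mul, norm_mul]
      have e1 := Kq_norm t H c y hcc h8 hHD
      have e2 := hgb y
      have e3 : (1 + |y|) ^ A ≤ (1 + |y|) ^ (2 * |A| + 1) := by
        apply Real.rpow_le_rpow_of_exponent_le (by linarith [abs_nonneg y])
        linarith [le_abs_self A, abs_nonneg A]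
      calc ‖(2 : ℂ)‖ * ‖g (c + y * I)‖ * ‖Kq t H (c + y * I)‖
          ≤ 2 * (T ^ A * (1 + |y|) ^ A) * Real.exp 1 := by
            gcongr
            simp
        _ = (2 * Real.exp 1 * T ^ A) * (1 + |y|) ^ A := by ring
        _ ≤ t ^ (2 * |A| + 1) * (1 + |y|) ^ (2 * |A| + 1) := by gcongr)
  have e4 : ∀ y : ℝ, 2 * g (c + y * I) * Kq t H (c + y * I) * WW t (c + y * I) =
      2 * (g (c + y * I) * WL t H (c + y * I)) := by
    intro y
    rw [WL_eq]
    ring
  constructor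
  · simp_rw [e4] at i1
    have i3 := i1.const_mul (1 / 2 : ℂ)
    refine i3.congr (Filter.Eventually.of_forall fun y => ?_)
    simp only
    ring
  · have e5 : VI c (fun s => 2 * g s * Kq t H s * WW t s) =
        2 * VI c (fun s => g s * WL t H s) := by
      unfold VI
      simp_rw [e4]
      rw [MeasureTheory.integral_const_mul]
      ring
    have e6 : VF c t (fun s => 2 * g s * Kq t H s * WW t s) =
        2 * VF c t (fun s => g s * WL t H s) := by
      unfold VF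
      simp_rw [e4]
      rw [intervalIntegral.integral_const_mul]
      ring
    rw [e5, e6, ← mul_sub, norm_mul, Complex.norm_ofNat] at i2
    have e7 : 1 / t ≤ 2 / T := by
      rw [div_le_div_iff₀ (by linarith) (by linarith)]
      linarith
    have e8 : 2 / T = 2 * (1 / T) := by ring
    linarith

/-- MOVL -/
theorem movL (hm : P5.MovStatement) (hd : DDStatement) : MovLStatement := by
  intro A c a0 hc1 hc2 ha0 ha1
  obtain ⟨T0, h0⟩ := range hd A a0 ha0 ha1 _ (hm (2 * |A| + 1) c hc1 hc2)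
  refine ⟨T0, fun T t H hT hR F hF hFb => ?_⟩
  obtain ⟨h1, h8, hHD, ht6, hTt, hpow, ht1⟩ := h0 T t H hT hR
  have hT0 : 0 < T := by linarith [hR.2.1]
  have h2 := h1 (fun s => F s * Kq t H s) (hF.mul (Kq_diff t H).differentiableOn) (fun s hs => by
    rw [norm_mul]
    have e1 := Kq_norm' t H s (SB_re hs) h8 hHD
    have e2 := hFb s hs
    calc ‖F s‖ * ‖Kq t H s‖ ≤ T ^ A * Real.exp 1 := by gcongr
      _ ≤ 2 * Real.exp 1 * T ^ A := by
          have : 0 < Real.exp 1 * T ^ A := by positivity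
          linarith
      _ ≤ _ := hpow)
  have e3 : (fun s => om s * (F s * Kq t H s) * WW t s) = (fun s => om s * F s * WL t H s) := by
    funext s
    rw [WL_eq]
    ring
  rwa [e3] at h2

/-- ZSFL -/
theorem zsfL (hz : ZeroSumStatement) (hd : DDStatement) : ZsfLStatement := by
  intro A c a0 hc1 hc2 ha0 ha1
  obtain ⟨T0, h0⟩ := range hd A a0 ha0 ha1 _ (hz (2 * |A| + 1) c hc1 hc2)
  refine ⟨T0, fun T t H hT hR F hF hFb => ?_⟩
  obtain ⟨h1, h8, hHD, ht6, hTt, hpow, ht1⟩ := h0 T t H hT hR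
  have hT0 : 0 < T := by linarith [hR.2.1]
  have h2 := h1 (fun s => F s * Kq t H s) (hF.mul (Kq_diff t H).differentiableOn) (fun s hs => by
    rw [norm_mul]
    have e1 := Kq_norm' t H s (SB_re hs) h8 hHD
    have e2 := hFb s hs
    calc ‖F s‖ * ‖Kq t H s‖ ≤ T ^ A * Real.exp 1 := by gcongr
      _ ≤ 2 * Real.exp 1 * T ^ A := by
          have : 0 < Real.exp 1 * T ^ A := by positivity
          linarith
      _ ≤ _ := hpow)
  have e3 : (fun s => logDeriv riemannZeta s * (F s * Kq t H s) * WW t s) =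
      (fun s => logDeriv riemannZeta s * F s * WL t H s) := by
    funext s
    rw [WL_eq]
    ring
  have hKs : ∀ s : ℂ, (starRingEnd ℂ) (Kq t H (1 - (starRingEnd ℂ) s)) = Kq t H s := by
    intro s
    unfold Kq
    rw [← Complex.exp_conj]
    congr 1
    simp only [map_mul, map_pow, map_sub, map_div₀, Complex.conj_ofReal, Complex.conj_I,
      Complex.conj_conj, map_one, map_ofNat]
    ring
  have e4 : (fun s => (om s + logDeriv riemannZeta s) *
        (starRingEnd ℂ) (F (1 - (starRingEnd ℂ) s) * Kq t H (1 - (starRingEnd ℂ) s)) * WW t s) =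
      (fun s => (om s + logDeriv riemannZeta s) *
        (starRingEnd ℂ) (F (1 - (starRingEnd ℂ) s)) * WL t H s) := by
    funext s
    rw [map_mul, hKs, WL_eq]
    ring
  have e5 : ZS t (fun s => F s * Kq t H s) = ZL t H F := by
    unfold ZS ZL
    apply finsum_mem_congr rfl
    intro γ _
    rw [WL_eq]
    ring
  rw [e3, e4, e5] at h2
  exact h2

end Pool.Agent.Lib.MP_6bc78b_nt.LW.H80
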