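import Pool.Agent.Lib.MP_6bc78b_nt.LW.H80.Win
import Pool.Agent.Lib.MP_6bc78b_nt.LW.H80.Var
import Pool.Agent.Lib.MP_6bc78b_nt.LW.H80.Hw
import Pool.Agent.Lib.MP_6bc78b_nt.LW.H81.Edg
import Pool.Agent.Lib.MP_6bc78b_nt.LW.H59.Cnl
import Pool.Agent.Lib.MP_6bc78b_nt.LW.H59.Rst
import Pool.Agent.Lib.MP_6bc78b_nt.LW.H71.Cnt4
import Pool.Agent.Lib.MP_6bc78b_nt.LW.H12.Shp
import Pool.Agent.Lib.MP_6bc78b_nt.LW.H81.Zd
import Pool.Agent.Lib.MP_6bc78b_nt.LW.H94.Mm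
import Pool.Agent.Lib.MP_6bc78b_nt.LW.H95.Lin
import Pool.Agent.Lib.MP_6bc78b_nt.MS.P5.HM.Final

/-! Project LW: the modules without hypotheses (except the Riemann hypothesis). -/

set_option autoImplicit false

namespace Pool.Agent.Lib.MP_6bc78b_nt.LW.H80

open Pool.Agent.Lib.MP_6bc78b_nt
open Pool.Agent.Lib.MP_6bc78b_nt.MS Pool.Agent.Lib.MP_6bc78b_nt.MS.P1
open Pool.Agent.Lib.MP_6bc78b_nt.MS.P5 Pool.Agent.Lib.MP_6bc78b_nt.MS.P5.HM
open Pool.Agent.Lib.MP_6bc78b_nt.LW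

theorem gauLF : GauLStatement := gauL
theorem tailLF : TailLStatement := tailL (P1.tail GAU.gau DDF.ddf) DDF.ddf
theorem movLF : MovLStatement := movL (H51.mov CHI.chi CHO.cho GAU.gau DDF.ddf) DDF.ddf
theorem zsfLF (hRH : RiemannHypothesis) : ZsfLStatement := zsfL (P5.zsfF hRH) DDF.ddf
theorem edgLF : EdgLStatement := H81.edgL gauLF SWAP.swap
theorem edg0LF : Edg0LStatement := H81.edg0L gauLF SWAP.swap
theorem mvLF : MvLStatement := H81.mvL gauLF SWAP.swap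
theorem cnLF (hRH : RiemannHypothesis) : CnLStatement :=
  H59.cnL (zsfLF hRH) tailLF movLF edg0LF gauLF CHO.cho LSER.lser CHI.chi
theorem rstLF : RstLStatement := H59.rstL
theorem varLF : VarLStatement := varL H71.cnt4
theorem shpF : ShpStatement := H12.shp P4.H30.zfac
theorem cnwF (hRH : RiemannHypothesis) : CnwStatement :=
  H12.cnw P4.H30.zfac (nasF hRH) (cnLF hRH)
theorem excF : ExcStatement := H12.excS
theorem nb0F : Nb0Statement := H71.nb0

theorem zdLF (hRH : RiemannHypothesis) : ZdLStatement :=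
  H81.zdL (zsfLF hRH) tailLF movLF edgLF mvLF gauLF CHO.cho LSER.lser CHI.chi P4.H30.zfac
theorem mmLF (hRH : RiemannHypothesis) : MmLStatement :=
  H94.mmL P4.H30.zfac (zdLF hRH) LSER.lser H22.ppw PRIM.prim
theorem linLF (hRH : RiemannHypothesis) : LinLStatement :=
  H95.linL gauLF P4.H30.zfac (zsfLF hRH) tailLF movLF edgLF edg0LF mvLF CHO.cho CHI.chi
    LSER.lser PRIM.prim

/-- The two weighted inequalities. -/
theorem hwLF (hRH : RiemannHypothesis) : HwLStatement :=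
  hwL P4.H30.zfac (mmLF hRH) (linLF hRH) rstLF (cnLF hRH) PRIM.prim (P1.PT.pt hRH)

end Pool.Agent.Lib.MP_6bc78b_nt.LW.H80
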